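import Pool.Agent.H84.Star.Poly
import Pool.Agent.H78.NP.CookLevin

/-!
# Foremost coverage of stars with bounded edge recurrence is NP-hard for every bound `Δ ≥ 2`

The decision problem and the encoding of its inputs are defined in `Pool.Agent.H84.Star.Problem`.
The class NP and NP-hardness (polynomial-time many-one reductions, Mathlib's `TM2` machines) are
defined in `Pool.Agent.H78.NP.Defs`.
-/

set_option autoImplicit false

namespace Pool.Agent.Results.MP_21485e_lc.NPHardStar

open Pool.Agent.H84.Star Pool.Agent.H78.NP Pool.Agent.H79.Cx Turing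

/-- All graphs of the schedule have duration `1`, and the schedule ends with the whole graph, which
is present in the single step that follows the deadline. -/
structure Tame (I : Instance) : Prop where
  unit : ∀ x ∈ I.sched, x.2 = 1
  last : ∃ l, I.sched = l ++ [(I.G, 1)] ∧ l.length = I.t

/-- A clause with three literals as a list of literals. -/
def toList (c : Cl) : List (Bool × ℕ) := [(c.1.2, c.1.1), (c.2.1.2, c.2.1.1), (c.2.2.2, c.2.2.1)]

theorem sat3_iff (φ : List Cl) : Sat3 φ ↔ SatCNF (φ.map toList) := by
  have key : ∀ (v : ℕ → Bool) (c : Cl), Cl.Sat v c ↔ ∃ l ∈ toList c, v l.2 = l.1 := by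
    intro v c
    simp only [Cl.Sat, toList, List.mem_cons, List.not_mem_nil, or_false, exists_eq_or_imp,
      exists_eq_left]
  constructor
  · rintro ⟨v, h⟩
    refine ⟨v, fun C hC => ?_⟩
    obtain ⟨c, hc, rfl⟩ := List.mem_map.1 hC
    exact (key v c).1 (h c hc)
  · rintro ⟨v, h⟩
    exact ⟨v, fun c hc => (key v c).2 (h _ (List.mem_map_of_mem hc))⟩

theorem toList_PT : PT (fun φ : List Cl => φ.map toList) := by
  refine PT.map (f := fun _ c => toList c) ?_ PT.id
  unfold toList
  fun_prop

/-- Every language in NP reduces in polynomial time to foremost coverage of stars; the instances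
which are produced satisfy the recurrence condition for every `Δ ≥ 2`. -/
theorem result (L : Set (List Bool)) (hL : InNP L) : ∃ f : List Bool → Instance,
    Nonempty (TM2ComputableInPolyTime (id : List Bool → List Bool) encodeInstance f) ∧
    ∀ x, (∀ Δ, 2 ≤ Δ → (f x).Valid Δ) ∧ Tame (f x) ∧ (x ∈ L ↔ (f x).Coverable) := by
  obtain ⟨g, hg, hgL⟩ := nph_sat3 L hL
  refine ⟨fun x => instF ((g x).map toList), ?_, fun x => ⟨instF_valid _, ?_, ?_⟩⟩
  · have h1 : PT (fun x => rep (instF ((g x).map toList))) := by
      simp only [rep_instF]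
      exact PT.comp datF_PT (PT.comp toList_PT hg)
    have h2 := toTM2_word_rep rep h1
    have h3 : (fun I => cd (rep I)) = encodeInstance := by
      funext I
      exact (encodeInstance_eq I).symm
    rw [h3] at h2
    exact h2
  · obtain ⟨h1, h2⟩ := instF_sched ((g x).map toList)
    exact ⟨h1, h2⟩
  · rw [hgL x, sat3_iff, instF_coverable]

/-- In particular the problem is NP-hard for every fixed `Δ ≥ 2`. -/
theorem npHard (Δ : ℕ) (hΔ : 2 ≤ Δ) :
    NPHard encodeInstance (fun I => I.Valid Δ ∧ I.Coverable) := by
  intro L hL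
  obtain ⟨f, hf, hx⟩ := result L hL
  exact ⟨f, hf, fun x => ⟨fun h => ⟨(hx x).1 Δ hΔ, (hx x).2.2.1 h⟩, fun h => (hx x).2.2.2 h.2⟩⟩

end Pool.Agent.Results.MP_21485e_lc.NPHardStar
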